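import Mathlib
import Pool.Agent.Lib.MP_349854_an.Defs
import Pool.Agent.Lib.MP_349854_an.Proof

set_option autoImplicit false

namespace Pool.Agent.Results.MP_349854_an.SCDNoPiBasis

open Pool.Agent.Lib.MP_349854_an

/-- There are a real Banach space `X` and a closed, convex, bounded SCD set `U ⊆ X` whose relative
weak topology has no countable π-basis. -/
theorem result :
    ∃ (X : Type) (_ : NormedAddCommGroup X) (_ : NormedSpace ℝ X) (_ : CompleteSpace X)
      (U : Set X), IsClosed U ∧ Convex ℝ U ∧ Bornology.IsBounded U ∧ IsSCD U ∧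
        ¬ HasCountablePiBasis (toWeakSpace ℝ X '' U) :=
  ⟨E, inferInstance, inferInstance, inferInstance, main⟩

end Pool.Agent.Results.MP_349854_an.SCDNoPiBasis
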